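import Pool.Agent.Helper24.KK.GoalsA

/-!
# Packet KK-ROW: row sums of the Kikuchi matrices
-/

set_option autoImplicit false

namespace Pool.Agent.Helper93.KK

open Pool.Agent.Helper24.KK
open Finset

theorem ent_right {Φ Mm : Type} [DecidableEq Φ] {l : ℕ} {u v : ℕ → Mm → Φ} {n k : ℕ} {m : Mm}
    {I J J' : Ix Φ l} (h : Ent u v n k m I J) (h' : Ent u v n k m I J') : J = J' := by
  obtain ⟨⟨-, -, h1⟩, ⟨-, -, h2⟩⟩ := h
  obtain ⟨⟨-, -, h1'⟩, ⟨-, -, h2'⟩⟩ := h'
  exact Prod.ext (Subtype.ext (h1.trans h1'.symm)) (Subtype.ext (h2.trans h2'.symm))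

theorem wt_nonneg {Φ Mm : Type} [Fintype Φ] [DecidableEq Φ] [Fintype Mm] (l : ℕ) (x : ℕ → ℝ)
    (u v : ℕ → Mm → Φ) (Δ : ℝ) (n k : ℕ) (m : Mm) : 0 ≤ wt l x u v Δ n k m := by
  unfold wt
  split_ifs
  · positivity
  · exact le_rfl

theorem wt_le {Φ Mm : Type} [Fintype Φ] [DecidableEq Φ] [Fintype Mm] (l : ℕ) (x : ℕ → ℝ)
    (u v : ℕ → Mm → Φ) (Δ : ℝ) (n k : ℕ) (m : Mm) (h : 0 < dz (Fintype.card Φ) l) :
    wt l x u v Δ n k m ≤ 2 / dz (Fintype.card Φ) l := by
  unfold wt
  split_ifs with h1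
  · calc ((nk l x u v Δ n k m : ℝ))⁻¹ ≤ (dz (Fintype.card Φ) l / 2)⁻¹ :=
          inv_anti₀ (by positivity) h1
      _ = 2 / dz (Fintype.card Φ) l := by rw [inv_div]
  · positivity

open Classical in
theorem sum_one {ι : Type} [Fintype ι] (P : ι → Prop) (w c : ℝ) (hc : 0 ≤ c) (hw : w ≤ c)
    (hP : ∀ i j, P i → P j → i = j) : ∑ i, (if P i then w else 0) ≤ c := by
  by_cases h : ∃ i, P i
  · obtain ⟨i, hi⟩ := h
    rw [Finset.sum_eq_single i (fun j _ hj => if_neg fun hj' => hj (hP j i hj' hi))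
      (fun h => absurd (Finset.mem_univ i) h), if_pos hi]
    exact hw
  · push Not at h
    rw [Finset.sum_eq_zero fun i _ => if_neg (h i)]
    exact hc

/-- Packet ROW. -/
theorem row : ROW := by
  intro Φ Mm _ _ _ _ l x u v Δ hΔ hdz n I
  classical
  by_cases hr : rdeg x u v n I ≤ Δ
  swap
  · have h0 : ∀ J : Ix Φ l, kA x u v Δ n I J = 0 := by
      intro J
      unfold kA
      apply Finset.sum_eq_zero
      intro k _
      rw [Finset.sum_eq_zero, mul_zero]
      intro m _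
      exact if_neg fun h => hr h.2.1
    simp only [h0, abs_zero, Finset.sum_const_zero]
    positivity
  have h1 : ∀ J : Ix Φ l, |kA x u v Δ n I J| ≤ ∑ k ∈ range n, |x k| * ∑ m : Mm,
      if Kept x u v Δ n k m I J then wt l x u v Δ n k m else 0 := by
    intro J
    unfold kA
    refine (Finset.abs_sum_le_sum_abs _ _).trans (Finset.sum_le_sum fun k _ => ?_)
    rw [abs_mul]
    apply le_of_eq
    congr 1
    apply abs_of_nonneg
    apply Finset.sum_nonneg
    intro m _
    split_ifs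
    · exact wt_nonneg l x u v Δ n k m
    · exact le_rfl
  calc ∑ J : Ix Φ l, |kA x u v Δ n I J|
      ≤ ∑ J : Ix Φ l, ∑ k ∈ range n, |x k| * ∑ m : Mm,
        (if Kept x u v Δ n k m I J then wt l x u v Δ n k m else 0) :=
        Finset.sum_le_sum fun J _ => h1 J
    _ = ∑ k ∈ range n, |x k| * ∑ m : Mm, ∑ J : Ix Φ l,
        (if Kept x u v Δ n k m I J then wt l x u v Δ n k m else 0) := by
        rw [Finset.sum_comm]
        refine Finset.sum_congr rfl fun k _ => ?_
        rw [← Finset.mul_sum, Finset.sum_comm]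
    _ ≤ ∑ k ∈ range n, |x k| * ∑ m : Mm,
        (if u n m ∈ I.1.1 ∧ v k m ∈ I.2.1 then 2 / dz (Fintype.card Φ) l else 0) := by
        refine Finset.sum_le_sum fun k _ => mul_le_mul_of_nonneg_left ?_ (abs_nonneg _)
        refine Finset.sum_le_sum fun m _ => ?_
        split_ifs with h
        · exact sum_one (fun J => Kept x u v Δ n k m I J) _ _ (by positivity)
            (wt_le l x u v Δ n k m hdz) fun J J' hJ hJ' => ent_right hJ.1 hJ'.1
        · apply le_of_eq
          apply Finset.sum_eq_zero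
          intro J _
          exact if_neg fun hK => h ⟨hK.1.1.1, hK.1.2.1⟩
    _ = rdeg x u v n I * (2 / dz (Fintype.card Φ) l) := by
        unfold rdeg
        rw [Finset.sum_mul]
        refine Finset.sum_congr rfl fun k _ => ?_
        rw [← Finset.sum_filter, Finset.sum_const, nsmul_eq_mul, mul_assoc]
    _ ≤ Δ * (2 / dz (Fintype.card Φ) l) := mul_le_mul_of_nonneg_right hr (by positivity)
    _ = 2 * Δ / dz (Fintype.card Φ) l := by ring

end Pool.Agent.Helper93.KK
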